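import Pool.Agent.H53.GM.Targets2
import Pool.Agent.H53.GM.Basic
import Pool.Agent.H53.RG.Defs

/-!
# Forbidden coloured patterns: maximal types of tuples of the template
-/

set_option autoImplicit false
set_option linter.unusedVariables false

namespace Pool.Agent.H12.GM

open Pool.Agent.H68.BP Pool.Agent.H58.SF Pool.Agent.H53.GC Pool.Agent.H53.GR Pool.Agent.H53.GM
open Pool.Agent.H53.RG
open Classical

section aux

variable {τ : Sig} {N : ℕ} {A : Type}

/-- the restriction of a structure to a finite set -/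
def rst (𝔸 : Str τ A) (T : Finset A) : Str τ {x // x ∈ T} := fun l z => 𝔸 l (fun i => (z i).1)

/-- a tuple with values in `T` -/
def cod {k : ℕ} (T : Finset A) (a : Fin k → A) (h : ∀ v, a v ∈ T) (v : Fin k) :
    {x // x ∈ T} × Fin k := (⟨a v, h v⟩, v)

theorem cod_inj {k : ℕ} (T : Finset A) (a : Fin k → A) (h : ∀ v, a v ∈ T) :
    Function.Injective (cod T a h) := fun v v' hv => congrArg Prod.snd hv

theorem rse_rs_congr {J J' : Type} (u u' : J' → J) (e : Finset J') (h : ∀ v ∈ e, u v = u' v)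
    (P : Ty τ N J) : rse e (rs u P) ⊆ rse e (rs u' P) := by
  rintro q ⟨h1, h2⟩
  refine ⟨?_, h2⟩
  have h3 : (fun v => (q.2 v).map u) = fun v => (q.2 v).map u' := by
    funext v
    rcases hv : q.2 v with _ | i
    · rfl
    · show some (u i) = some (u' i)
      rw [h i (h2 v i hv)]
  have h4 : (q.1, fun v => (q.2 v).map u) ∈ P := h1
  rw [h3] at h4
  exact h4

end aux

theorem pf_KAP (hTPB : Pool.Agent.H53.GM.T_TPB) (hBLW : Pool.Agent.H53.GM.T_BLW)
    (hMXE : Pool.Agent.H53.GM.T_MXE) (hMXR : Pool.Agent.H53.GM.T_MXR) :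
    Pool.Agent.H53.GM.T_KAP := by
  intro τ N F A 𝔸' hF hV k hk
  have hne : Nonempty (Fin k) := ⟨⟨0, hk⟩⟩
  -- the maximal types on finite subsets
  have hP : ∀ T : Finset A, ∃ P : Ty τ N ({x // x ∈ T} × Fin k), Mx F P ∧
      tp N (blw (rst 𝔸' T) (Fin k)) (fun j => j) ⊆ P := by
    intro T
    have h1 : Val F (rst 𝔸' T) := Val.of_hom (f := fun x => x.1) hV (fun l z hz => hz)
    have h2 := (hBLW τ N F _ (Fin k) (rst 𝔸' T) hne).1 h1
    exact hMXE τ N F _ _ ⟨_, inferInstance, _, _, h2, rfl⟩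
  choose P hP1 hP2 using hP
  have hfin := finite_ty τ N (Fin k)
  let KT : (Fin k → A) → Finset A → Ty τ N (Fin k) := fun a T =>
    if h : ∀ v, a v ∈ T then rs (cod T a h) (P T) else ∅
  have hKT : ∀ (a : Fin k → A) (T : Finset A) (h : ∀ v, a v ∈ T),
      KT a T = rs (cod T a h) (P T) := fun a T h => dif_pos h
  let K : (Fin k → A) → Ty τ N (Fin k) := fun a => ulim (cone A) (KT a)
  have hK : ∀ a, ∀ᶠ T in ((cone A : Ultrafilter (Finset A)) : Filter (Finset A)),
      KT a T = K a := fun a => ulim_spec (cone A) (KT a)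
  have hcone : ∀ a : Fin k → A, ∀ᶠ T in ((cone A : Ultrafilter (Finset A)) : Filter (Finset A)),
      ∀ v, a v ∈ T := by
    intro a
    refine (cone_mem (Finset.univ.image a)).mono fun T hT v => ?_
    exact hT (Finset.mem_image_of_mem a (Finset.mem_univ v))
  refine ⟨K, ?_, ?_, ?_⟩
  · intro a
    obtain ⟨T, h1, h2⟩ := ((hK a).and (hcone a)).exists
    rw [← h1, hKT a T h2]
    exact hMXR τ N F _ _ (cod T a h2) (P T) hF (cod_inj T a h2) (hP1 T)
  · intro e a a' hee
    obtain ⟨T, ⟨h1, h2⟩, h3, h4⟩ :=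
      (((hK a).and (hcone a)).and ((hK a').and (hcone a'))).exists
    rw [← h1, ← h3, hKT a T h2, hKT a' T h4]
    have h5 : ∀ v ∈ e, cod T a h2 v = cod T a' h4 v := by
      intro v hv
      unfold cod
      have h6 : a v = a' v := hee v hv
      refine Prod.ext (Subtype.ext h6) rfl
    exact Set.Subset.antisymm (rse_rs_congr _ _ e h5 _)
      (rse_rs_congr _ _ e (fun v hv => (h5 v hv).symm) _)
  · rintro a q ⟨hrc, f, hf, hroot⟩
    have hcf : ∀ᶠ T in ((cone A : Ultrafilter (Finset A)) : Filter (Finset A)),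
        ∀ v, f v ∈ T := by
      refine (cone_mem (Finset.univ.image f)).mono fun T hT v => ?_
      exact hT (Finset.mem_image_of_mem f (Finset.mem_univ v))
    obtain ⟨T, ⟨h1, h2⟩, h3⟩ := (((hK a).and (hcone a)).and hcf).exists
    rw [← h1, hKT a T h2]
    have h4 : q ∈ tp N (rst 𝔸' T) (fun v => (⟨a v, h2 v⟩ : {x // x ∈ T})) := by
      refine ⟨hrc, fun v => ⟨f v, h3 v⟩, fun l z hz => hf l z hz, fun v i hv => ?_⟩
      exact Subtype.ext (hroot v i hv)
    have h5 := (hBLW τ N F _ (Fin k) (rst 𝔸' T) hne).2 (Fin k) (cod T a h2)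
    have h6 := (hTPB τ N _ ({x // x ∈ T} × Fin k) _ (Fin k) (blw (rst 𝔸' T) (Fin k))
      (blw (rst 𝔸' T) (Fin k)) (fun j => j)).2.1 (cod T a h2)
    have h7 : q ∈ tp N (blw (rst 𝔸' T) (Fin k)) (cod T a h2) := by
      rw [h5]
      exact h4
    have h8 : q ∈ rs (cod T a h2) (tp N (blw (rst 𝔸' T) (Fin k)) (fun j => j)) := by
      rw [← h6]
      exact h7
    exact rs_mono (cod T a h2) (hP2 T) h8

end Pool.Agent.H12.GM
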